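import Pool.Agent.T9h21.DP.Spec3

/-!
# DPA, piece (u8): the upper bound from the steps

Author: helper43.
-/

open Finset
open scoped ENNReal

set_option autoImplicit false

namespace Pool.Agent.T9h43.DP

open Pool.Agent.T9h48.SC Pool.Agent.T9h48.TSP Pool.Agent.T9h21.DP

theorem apx_mono {n : ℕ} {A : Finset (Fin n)} {ρ ρ' : ℝ} {F : Fm (Fin n × Fin n)} (h : ρ ≤ ρ')
    (hF : Apx A ρ F) : Apx A ρ' F := fun p =>
  ⟨(hF p).1, fun r hr ht => ((hF p).2 r hr ht).trans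
    (ENNReal.ofReal_le_ofReal (mul_le_mul_of_nonneg_right h hr))⟩

theorem tsp_nonneg {n : ℕ} (p : Fin n → ℤ × ℤ) : 0 ≤ tsp p := by
  unfold tsp
  refine Real.iInf_nonneg fun τ => ?_
  unfold tourLen
  exact sum_nonneg fun i _ => Real.sqrt_nonneg _

/-- the numbers of additions -/
def sz (n s0 : ℕ) : ℕ → ℕ
  | 0 => s0
  | i + 1 => (2 * n) ^ 4 * (2 * n + 2 + sz n s0 i)

theorem le_sz {n s0 : ℕ} (hn : 2 ≤ n) : ∀ i, s0 ≤ sz n s0 i
  | 0 => le_rfl
  | i + 1 => by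
    have h1 := le_sz hn (s0 := s0) i
    have h2 : 1 ≤ (2 * n) ^ 4 := Nat.one_le_pow _ _ (by omega)
    show s0 ≤ (2 * n) ^ 4 * (2 * n + 2 + sz n s0 i)
    calc s0 ≤ 1 * (2 * n + 2 + sz n s0 i) := by omega
      _ ≤ _ := Nat.mul_le_mul_right _ h2

theorem sz_le {n s0 : ℕ} (hn : 2 ≤ n) (hs : 1 ≤ s0) : ∀ i, sz n s0 i ≤ (64 * n ^ 5) ^ i * s0
  | 0 => by simp [sz]
  | i + 1 => by
    have h1 := sz_le hn hs i
    have h2 : 1 ≤ sz n s0 i := hs.trans (le_sz hn i)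
    show (2 * n) ^ 4 * (2 * n + 2 + sz n s0 i) ≤ _
    have h3 : 2 * n + 2 + sz n s0 i ≤ (4 * n) * sz n s0 i := by
      have h4 : 2 * n + 2 ≤ (2 * n + 2) * sz n s0 i := Nat.le_mul_of_pos_right _ h2
      have h5 : (2 * n + 3) * sz n s0 i ≤ (4 * n) * sz n s0 i :=
        Nat.mul_le_mul_right _ (by omega)
      have h6 : (2 * n + 3) * sz n s0 i = (2 * n + 2) * sz n s0 i + sz n s0 i := by ring
      omega
    calc (2 * n) ^ 4 * (2 * n + 2 + sz n s0 i) ≤ (2 * n) ^ 4 * ((4 * n) * sz n s0 i) :=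
          Nat.mul_le_mul_left _ h3
      _ = (64 * n ^ 5) * sz n s0 i := by ring
      _ ≤ (64 * n ^ 5) * ((64 * n ^ 5) ^ i * s0) := Nat.mul_le_mul_left _ h1
      _ = (64 * n ^ 5) ^ (i + 1) * s0 := by ring

theorem uMain (hc : U_circ) (ht : U_tour) (hs : U_step) (he : U_exact) : U_main := by
  obtain ⟨K0, hK0, hex⟩ := he
  obtain ⟨-, -, ht3, ht4⟩ := ht
  refine ⟨77 + 5 * K0, by positivity, fun n j hn hj => ?_⟩
  have hn' : (2 : ℝ) ≤ n := by exact_mod_cast hn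
  have hn0 : (0 : ℝ) < n := by linarith
  set ℓ : ℝ := Real.log n with hℓd
  have hℓ : Real.log 2 ≤ ℓ := Real.log_le_log (by norm_num) hn'
  have hℓ2 : 1 / 2 ≤ ℓ := by
    have := Real.log_two_gt_d9
    linarith
  set E : ℝ := (3 / 4) ^ j * n with hE
  have hE0 : 0 ≤ E := by positivity
  set S : ℝ := Real.exp (K0 * (E + 1 + ℓ ^ 2)) with hS
  have hS1 : 1 ≤ S := Real.one_le_exp (by positivity)
  have hS0 : 1 ≤ ⌊S⌋₊ := Nat.le_floor (by exact_mod_cast hS1)
  -- the claim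
  have claim : ∀ i, i ≤ j → ∀ A : Finset (Fin n), A.Nonempty →
      (A.card : ℝ) ≤ (3 / 4) ^ (j - i) * n →
        ∃ F, Apx A (200 * (i : ℝ) + 1) F ∧ F.adds ≤ sz n ⌊S⌋₊ i := by
    intro i
    induction i with
    | zero =>
      intro _ A hA hcard
      obtain ⟨F, hF1, hF2⟩ := hex n A hn hA
      refine ⟨F, apx_mono (by simp) hF1, Nat.le_floor (hF2.trans (Real.exp_le_exp.2 ?_))⟩
      rw [Nat.sub_zero] at hcard
      refine mul_le_mul_of_nonneg_left ?_ hK0.le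
      linarith
    | succ i ih =>
      intro hij A hA hcard
      rcases Nat.lt_or_ge A.card 2 with h1 | h1
      · obtain ⟨F, hF1, hF2⟩ := hex n A hn hA
        refine ⟨F, apx_mono (by push_cast; nlinarith [Nat.cast_nonneg (α := ℝ) i]) hF1,
          (Nat.le_floor (hF2.trans (Real.exp_le_exp.2 ?_))).trans (le_sz hn _)⟩
        refine mul_le_mul_of_nonneg_left ?_ hK0.le
        have h2 : (A.card : ℝ) ≤ 1 := by exact_mod_cast (by omega : A.card ≤ 1)
        linarith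
      · obtain ⟨F, hF1, hF2⟩ := hs n A (200 * (i : ℝ) + 1) (sz n ⌊S⌋₊ i) h1 (by positivity) (by
          intro B hBA hB hB4
          refine ih (by omega) B hB ?_
          have h2 : (4 : ℝ) * B.card ≤ 3 * A.card := by exact_mod_cast hB4
          have h3 : j - i = (j - (i + 1)) + 1 := by omega
          rw [h3, pow_succ]
          nlinarith)
        refine ⟨F, apx_mono (by push_cast; linarith) hF1, hF2⟩
  have hne : (univ : Finset (Fin n)).Nonempty := ⟨⟨0, by omega⟩, mem_univ _⟩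
  obtain ⟨F, hF1, hF2⟩ := claim j le_rfl univ hne (by simp)
  obtain ⟨C, hC1, hC2⟩ := hc _ F
  refine ⟨C, fun N p _ _ => ?_, ?_⟩
  · obtain ⟨val, hv1, hv2⟩ := hC2 (dists p)
    refine ⟨val, hv1, ?_, ?_⟩
    · obtain ⟨r, hr0, hr1, hr2⟩ := (hF1 p).1
      rw [hv2]
      exact (ENNReal.ofReal_le_ofReal (ht4 n p r (by omega) hr1)).trans hr2
    · rw [hv2]
      exact (hF1 p).2 (tsp p) (tsp_nonneg p) (ht3 n p (by omega))
  · rw [hC1]
    have h1 : (F.adds : ℝ) ≤ (64 * (n : ℝ) ^ 5) ^ j * S := by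
      have h2 := hF2.trans (sz_le hn hS0 j)
      have h3 : (F.adds : ℝ) ≤ (64 * (n : ℝ) ^ 5) ^ j * (⌊S⌋₊ : ℝ) := by exact_mod_cast h2
      refine h3.trans (mul_le_mul_of_nonneg_left (Nat.floor_le (by positivity)) (by positivity))
    refine h1.trans ?_
    have h4 : (64 * (n : ℝ) ^ 5) ^ j = Real.exp (j * (6 * Real.log 2 + 5 * ℓ)) := by
      rw [← Real.exp_log (show (0 : ℝ) < 64 * (n : ℝ) ^ 5 by positivity), ← Real.exp_nat_mul]
      congr 2
      rw [Real.log_mul (by norm_num) (by positivity), Real.log_pow,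
        show (64 : ℝ) = 2 ^ 6 by norm_num, Real.log_pow]
      push_cast
      ring
    rw [h4, hS, ← Real.exp_add, Real.exp_le_exp]
    have hj0 : (0 : ℝ) ≤ j := Nat.cast_nonneg j
    have h5 : (j : ℝ) * (6 * Real.log 2 + 5 * ℓ) ≤ (7 * ℓ) * (11 * ℓ) := by
      refine mul_le_mul (by linarith) (by linarith) ?_ (by linarith)
      have := Real.log_pos (show (1 : ℝ) < 2 by norm_num)
      linarith
    have h6 : 1 ≤ 4 * ℓ ^ 2 := by nlinarith
    nlinarith [mul_nonneg hK0.le hE0, mul_le_mul_of_nonneg_left h6 hK0.le]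

end Pool.Agent.T9h43.DP
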